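import Mathlib

/-!
# The Gross-Deligne conjecture on periods and gamma values: definitions
-/

set_option autoImplicit false

namespace Run7.h615.GD

open Complex TensorProduct

/-- `x ~ y`: the nonzero complex numbers `x`, `y` have an algebraic quotient. -/
def Sim (x y : ℂ) : Prop := x ≠ 0 ∧ y ≠ 0 ∧ IsAlgebraic ℚ (x / y)

/-- The cohomology `H^m(X)` of a smooth projective variety `X` over the algebraic numbers. Here `A` is
the homology group `H_m(X(ℂ), ℚ)`, so that the cohomology group `H^m(X(ℂ), ℂ)` is the space of all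
linear maps `A → ℂ`, and `H^m(X(ℂ), ℚ)` consists of those with rational values; `dR` is the set of
the maps `γ ↦ ∫_γ ω` given by the classes `ω` in the algebraic de Rham cohomology of `X`, and
`hodge p` is the subspace `H^(p, m - p)`. -/
structure Coh where
  m : ℕ
  A : Type
  [grp : AddCommGroup A]
  [mod : Module ℚ A]
  [fin : FiniteDimensional ℚ A]
  dR : Set (A →ₗ[ℚ] ℂ)
  hodge : ℕ → Set (A →ₗ[ℚ] ℂ)

attribute [instance] Coh.grp Coh.mod Coh.fin

/-- The complex cohomology group `H^m(X(ℂ), ℂ)`. -/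
def Cls (X : Coh) : Type := X.A →ₗ[ℚ] ℂ

/-- The rational cohomology group `H^m(X(ℂ), ℚ)`. -/
def RatCls (X : Coh) : Type := X.A →ₗ[ℚ] ℚ

noncomputable instance (X : Coh) : AddCommGroup (Cls X) :=
  inferInstanceAs (AddCommGroup (X.A →ₗ[ℚ] ℂ))

noncomputable instance (X : Coh) : Module ℂ (Cls X) := inferInstanceAs (Module ℂ (X.A →ₗ[ℚ] ℂ))

/-- The class `x` belongs to the algebraic de Rham cohomology. -/
def IsDR {X : Coh} (x : Cls X) : Prop := x ∈ X.dR

/-- The class `x` is of type `(p, m - p)`. -/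
def IsOfType {X : Coh} (p : ℕ) (x : Cls X) : Prop := x ∈ X.hodge p

/-- The product of a class and a number. -/
noncomputable def scl {X : Coh} (s : ℂ) (x : Cls X) : Cls X := s • x

/-- The complex conjugate of a class. -/
noncomputable def bar {X : Coh} (x : Cls X) : Cls X :=
  (Complex.conjAe.toLinearMap.restrictScalars ℚ) ∘ₗ (x : X.A →ₗ[ℚ] ℂ)

/-- A rational class as a complex class. -/
noncomputable def rat {X : Coh} (x : RatCls X) : Cls X :=
  (Algebra.linearMap ℚ ℂ) ∘ₗ (x : X.A →ₗ[ℚ] ℚ)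

/-- `Ψ` is a bilinear form on `H^m(X(ℂ), ℂ)`. -/
def IsBilinear {X : Coh} (Ψ : Cls X → Cls X → ℂ) : Prop :=
  ∃ B : Cls X →ₗ[ℂ] Cls X →ₗ[ℂ] ℂ, ∀ x y, Ψ x y = B x y

/-- `Ψ` is a polarization of `H^m(X)`: a bilinear form which is rational on the rational classes,
has values in `(2πi)^m ℚ̄` on the classes of the algebraic de Rham cohomology, for which `H^(p, m - p)`
and `H^(p', m - p')` are orthogonal unless `p + p' = m`, and which satisfies `Ψ(x, x̄) ≠ 0` for all
nonzero classes `x` of type `(p, m - p)`. (Examples: for every ample class `L` the form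
`∫ L^(n - m) ∪ x ∪ y`, where `n` is the dimension of `X`, with the signs changed on some of the summands
of the Lefschetz decomposition; Hodge-Riemann relations.) -/
structure IsPolarization (X : Coh) (Ψ : Cls X → Cls X → ℂ) : Prop where
  bilinear : IsBilinear Ψ
  rational : ∀ u v : RatCls X, ∃ r : ℚ, Ψ (rat u) (rat v) = r
  periods : ∀ x y, IsDR x → IsDR y → ∃ a : ℂ, IsAlgebraic ℚ a ∧ Ψ x y = (2 * Real.pi * I) ^ X.m * a
  orth : ∀ p p' x y, IsOfType p x → IsOfType p' y → Ψ x y ≠ 0 → p + p' = X.m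
  positive : ∀ p x, IsOfType p x → x ≠ 0 → Ψ x (bar x) ≠ 0

/-- Known properties of `H^m(X)`: two proportional nonzero de Rham classes have an algebraic quotient
(comparison theorem); the subspaces `H^(p, m - p)`, `0 ≤ p ≤ m`, are independent and complex
conjugation maps `H^(p, m - p)` to `H^(m - p, p)`; there is a polarization. -/
structure IsGood (X : Coh) : Prop where
  line : ∀ (x : Cls X) (s t : ℂ), x ≠ 0 → t ≠ 0 → IsDR (scl s x) → IsDR (scl t x) →
    IsAlgebraic ℚ (s / t)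
  le : ∀ p (x : Cls X), IsOfType p x → x ≠ 0 → p ≤ X.m
  disj : ∀ p p' (x : Cls X), IsOfType p x → IsOfType p' x → x ≠ 0 → p = p'
  conj : ∀ p (x : Cls X), IsOfType p x → IsOfType (X.m - p) (bar x)
  polarized : ∃ Ψ, IsPolarization X Ψ

/-- The number `exp(2πi l / d)`. -/
noncomputable def root (d : ℕ) (l : ZMod d) : ℂ := exp (2 * Real.pi * I * (l.val / d))

/-- `F` is a subfield of `ℚ(μ_d)`, by means of the embedding `emb 1` of `F` in `ℂ`, and `emb l` is the
restriction to `F` of the embedding of `ℚ(μ_d)` which maps the root of unity `exp(2πi / d)` to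
`exp(2πi l / d)`. -/
structure Emb (d : ℕ) (F : Type) [Field F] [Algebra ℚ F] where
  emb : (ZMod d)ˣ → F →ₐ[ℚ] ℂ
  cyc : ∀ x, ∃ P : Polynomial ℚ, ∀ l, emb l x = Polynomial.aeval (root d l) P

/-- `F` is real. -/
def Emb.IsReal {d : ℕ} {F : Type} [Field F] [Algebra ℚ F] (E : Emb d F) : Prop :=
  ∀ l x, (E.emb l x).im = 0

/-- `F` is the field `ℚ(μ_d)`. -/
def Emb.IsFull {d : ℕ} {F : Type} [Field F] [Algebra ℚ F] (E : Emb d F) : Prop :=
  ∃ z, ∀ l, E.emb l z = root d l

/-- The class `σ ∘ q`. -/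
noncomputable def comp {F : Type} [Field F] [Algebra ℚ F] {X : Coh} (σ : F →ₐ[ℚ] ℂ)
    (q : X.A →ₗ[ℚ] F) : Cls X := σ.toLinearMap ∘ₗ q

/-- An admissible triple `(H, F, ι)` with `H ⊂ H^m(X)`. The homology of `H` is a quotient of
`H_m(X(ℂ), ℚ)` and a vector space of dimension one over `F`, so we can identify it with `F`; thus `H`
consists of the maps `γ ↦ Tr(δ q(γ))`, `δ ∈ F`, where `q : H_m(X(ℂ), ℚ) → F` is a surjective linear
map, `F` acts on `H` by multiplication of `δ`, and the line `H_σ` is spanned by `σ ∘ q`, for the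
embedding `σ = emb l`. This line is in `H^(p, m - p)` for `p = p(l)`. There is a class `ω_σ` in the
algebraic de Rham cohomology which spans `H_σ`: it is `per l` times `σ ∘ q`, so that `per l` is the
period `∫_γ ω_σ` for `q(γ) = 1`; the periods for the other `γ` with `q(γ) ≠ 0` are algebraic
multiples of it. So `per l` represents `P_σ(H)`. -/
structure Triple {d : ℕ} {F : Type} [Field F] [Algebra ℚ F] (E : Emb d F) where
  X : Coh
  q : X.A →ₗ[ℚ] F
  surj : ∀ y, ∃ a, q a = y
  p : (ZMod d)ˣ → ℕ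
  type : ∀ l, IsOfType (p l) (comp (E.emb l) q)
  per : (ZMod d)ˣ → ℂ
  per_ne : ∀ l, per l ≠ 0
  per_mem : ∀ l, IsDR (scl (per l) (comp (E.emb l) q))

/-- `d p(l) = ∑ ε(a) ⟨l a⟩` for all `l`, where `a` runs through `ℤ / d` and `⟨x⟩` is the
representative of `x` in `{0, …, d - 1}` (the summand of `a = 0` is zero). -/
def Expresses (d : ℕ) [NeZero d] (ε : ZMod d → ℚ) (p : (ZMod d)ˣ → ℚ) : Prop :=
  ∀ l, (d : ℚ) * p l = ∑ a : ZMod d, ε a * (((l : ZMod d) * a).val : ℚ)

/-- The product of the numbers `Γ(1 - a / d) ^ ε(a l⁻¹)`, where `a` runs through `{0, …, d - 1}` (the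
factor of `a = 0` is one). -/
noncomputable def gam (d : ℕ) [NeZero d] (ε : ZMod d → ℚ) (l : (ZMod d)ˣ) : ℝ :=
  ∏ a : ZMod d, Real.Gamma (1 - (a.val : ℝ) / d) ^ ((ε (a * (l⁻¹ : (ZMod d)ˣ)) : ℚ) : ℝ)

/-- The theorem of Koblitz and Ogus. -/
def KoblitzOgus : Prop :=
  ∀ (d : ℕ) [NeZero d] (ε : ZMod d → ℚ), Expresses d ε (fun _ => 0) →
    ∀ l, IsAlgebraic ℚ ((gam d ε l : ℝ) : ℂ)

/-- The pull-back of a class. -/
noncomputable def pull {X Y : Coh} (t : X.A →ₗ[ℚ] Y.A) (x : Cls Y) : Cls X :=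
  (x : Y.A →ₗ[ℚ] ℂ) ∘ₗ t

section

variable {d : ℕ} [NeZero d] {F : Type} [Field F] [Algebra ℚ F] {E : Emb d F}

/-- The class `σ ∘ q`, which spans the line `H_σ`, for `σ = emb l`. -/
noncomputable def Triple.cls (T : Triple E) (l : (ZMod d)ˣ) : Cls T.X := comp (E.emb l) T.q

/-- The relation of Q1 at `l`, for all possible `ε`. -/
def Triple.HoldsAt (T : Triple E) (l : (ZMod d)ˣ) : Prop :=
  ∀ ε : ZMod d → ℚ, Expresses d ε (fun l => T.p l) → Sim (T.per l) (gam d ε l)

/-- The relation of Q1 for all `l`. -/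
def Triple.Holds (T : Triple E) : Prop := ∀ l, T.HoldsAt l

/-- The lines `H_σ` and `H_τ` are not orthogonal for some polarization of `H^m(X)`. -/
def Triple.Linked (T : Triple E) (l l' : (ZMod d)ˣ) : Prop :=
  ∃ Ψ, IsPolarization T.X Ψ ∧ Ψ (T.cls l) (T.cls l') ≠ 0

/-- The lines `H_σ` and `H_τ` are joined by a chain with an even number of steps from a line to a
line which is not orthogonal to it for some polarization of `H^m(X)`. -/
def Triple.Even (T : Triple E) : (ZMod d)ˣ → (ZMod d)ˣ → Prop :=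
  Relation.ReflTransGen fun l l'' => ∃ l', T.Linked l l' ∧ T.Linked l' l''

/-- One of the lines `H_σ` is orthogonal, for all polarizations of `H^m(X)`, to all lines which are
joined to it by a chain with an even number of steps; in particular it is isotropic for all
polarizations. -/
def Triple.IsIsotropic (T : Triple E) : Prop := ∃ l, ∀ l', T.Even l l' → ¬ T.Linked l l'

/-- `H'` is the tensor power `H ⊗_F ⋯ ⊗_F H` (`n` factors) of `H`, up to isomorphisms which are
compatible with the algebraic de Rham cohomology: the number `p` and the periods are those of the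
tensor power. -/
def Triple.IsPower (T T' : Triple E) (n : ℕ) : Prop :=
  ∀ l, T'.p l = n * T.p l ∧ Sim (T'.per l) (T.per l ^ n)

/-- `H` consists of Hodge classes: the number `p` is constant. -/
def Triple.IsHodge (T : Triple E) : Prop := ∃ k, ∀ l, T.p l = k

/-- `H ⊂ H^m(X)` is isomorphic to the Tate twist `H'(-c)` of `H' ⊂ H^(m - 2 c)(Y)`, by an isomorphism
which commutes with `F` and which is the restriction of the action of a correspondence
`H^(m - 2 c)(Y) → H^m(X)`. Here `t` is the action on the homology. -/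
def Triple.IsTwist (T T' : Triple E) (c : ℕ) : Prop :=
  ∃ t : T.X.A →ₗ[ℚ] T'.X.A, (∀ a, T'.q (t a) = T.q a) ∧
    (∀ x, IsDR x → IsDR (scl ((2 * Real.pi * I) ^ c) (pull t x))) ∧
    ∀ p x, IsOfType p x → IsOfType (p + c) (pull t x)

end

/-- The group `H_m(X) ⊗ H_m'(Y)`. -/
def Ten (X Y : Coh) : Type := X.A ⊗[ℚ] Y.A

noncomputable instance (X Y : Coh) : AddCommGroup (Ten X Y) :=
  inferInstanceAs (AddCommGroup (X.A ⊗[ℚ] Y.A))

noncomputable instance (X Y : Coh) : Module ℚ (Ten X Y) :=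
  inferInstanceAs (Module ℚ (X.A ⊗[ℚ] Y.A))

/-- The exterior product of two classes. -/
noncomputable def ext {X Y : Coh} (x : Cls X) (y : Cls Y) : Ten X Y →ₗ[ℚ] ℂ :=
  LinearMap.mul' ℚ ℂ ∘ₗ TensorProduct.map (x : X.A →ₗ[ℚ] ℂ) (y : Y.A →ₗ[ℚ] ℂ)

/-- The exterior product as a class on the product, for the projection `κ` of
`H_(m + m')(X × Y)` to `H_m(X) ⊗ H_m'(Y)`. -/
noncomputable def extCls {X Y Z : Coh} (κ : Z.A →ₗ[ℚ] Ten X Y) (x : Cls X) (y : Cls Y) : Cls Z :=
  ext x y ∘ₗ κ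

/-- The class `𝒳` of cohomology groups is closed under products: `κ` is the projection
`H_(m + m')(X × Y) → H_m(X) ⊗ H_m'(Y)` of the Künneth theorem. -/
def HasProducts (𝒳 : Set Coh) : Prop :=
  ∀ X ∈ 𝒳, ∀ Y ∈ 𝒳, ∃ Z ∈ 𝒳, Z.m = X.m + Y.m ∧
    ∃ κ : Z.A →ₗ[ℚ] Ten X Y, (∀ y, ∃ z, κ z = y) ∧
      (∀ x y, IsDR x → IsDR y → IsDR (extCls κ x y)) ∧
      ∀ p p' x y, IsOfType p x → IsOfType p' y → IsOfType (p + p') (extCls κ x y)

/-- `Φ` is a type of complex multiplication of `ℚ(μ_d)`. -/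
def IsCMType {d : ℕ} (Φ : Set (ZMod d)ˣ) : Prop := ∀ l, l ∈ Φ ↔ -l ∉ Φ

open Classical in
/-- For every type `Φ` of complex multiplication of the field `K = ℚ(μ_d)`, `d ≥ 3`, the class `𝒳`
contains `H^1` of an abelian variety with this type, and the conjecture is true for it (Anderson). -/
def HasCM (𝒳 : Set Coh) : Prop :=
  ∀ (d : ℕ) [NeZero d], 3 ≤ d → ∃ (K : Type) (_ : Field K) (_ : Algebra ℚ K) (E : Emb d K),
    E.IsFull ∧ ∀ Φ : Set (ZMod d)ˣ, IsCMType Φ → ∃ T : Triple E, T.X ∈ 𝒳 ∧ T.X.m = 1 ∧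
      (∀ l, T.p l = if l ∈ Φ then 1 else 0) ∧
        ∃ ε : ZMod d → ℚ, Expresses d ε (fun l => T.p l) ∧ ∀ l, Sim (T.per l) (gam d ε l)

/-- The conjecture for all `X` in `𝒳`. -/
def Conjecture (𝒳 : Set Coh) : Prop :=
  ∀ (d : ℕ) [NeZero d] (F : Type) [Field F] [Algebra ℚ F] (E : Emb d F) (T : Triple E),
    T.X ∈ 𝒳 → T.Holds

/-- The conjecture for all `X` in `𝒳`, all cyclotomic fields `F` and those spaces `H` of Hodge classes
with the property `IsIsotropic`. -/
def HodgeCase (𝒳 : Set Coh) : Prop :=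
  ∀ (d : ℕ) [NeZero d] (F : Type) [Field F] [Algebra ℚ F] (E : Emb d F) (T : Triple E),
    3 ≤ d → E.IsFull → T.IsHodge → T.IsIsotropic → T.X ∈ 𝒳 → T.Holds

/-- For all `X` in `𝒳` and all spaces `H ⊂ H^(2 k)(X)` of Hodge classes with multiplication by a
cyclotomic field such that the lines `H_σ` are spanned by algebraic de Rham classes, with the property
`IsIsotropic`, the periods are algebraic multiples of `(2πi)^k`: the classes in `H` are `(2πi)^(-k)` times
algebraic de Rham classes. -/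
def HodgeClassesAlgebraic (𝒳 : Set Coh) : Prop :=
  ∀ (d : ℕ) [NeZero d] (F : Type) [Field F] [Algebra ℚ F] (E : Emb d F) (T : Triple E) (k : ℕ),
    3 ≤ d → E.IsFull → (∀ l, T.p l = k) → T.IsIsotropic → T.X ∈ 𝒳 →
      ∀ l, Sim (T.per l) ((2 * Real.pi * I) ^ k)

end Run7.h615.GD
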