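import Pool.Agent.Run7.h615.GD.Defs

/-!
# The Gross-Deligne conjecture: products of gamma values
-/

set_option autoImplicit false

namespace Run7.h615.GD

open Complex

/-! ### the relation `~` -/

theorem alg_mul {x y : ℂ} (hx : IsAlgebraic ℚ x) (hy : IsAlgebraic ℚ y) : IsAlgebraic ℚ (x * y) :=
  (hx.isIntegral.mul hy.isIntegral).isAlgebraic

theorem alg_inv {x : ℂ} (hx : IsAlgebraic ℚ x) : IsAlgebraic ℚ x⁻¹ := hx.inv

theorem alg_div {x y : ℂ} (hx : IsAlgebraic ℚ x) (hy : IsAlgebraic ℚ y) : IsAlgebraic ℚ (x / y) := by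
  rw [div_eq_mul_inv]
  exact alg_mul hx (alg_inv hy)

theorem Sim.refl {x : ℂ} (hx : x ≠ 0) : Sim x x := ⟨hx, hx, by rw [div_self hx]; exact isAlgebraic_one⟩

theorem Sim.symm {x y : ℂ} (h : Sim x y) : Sim y x :=
  ⟨h.2.1, h.1, by rw [← inv_div]; exact alg_inv h.2.2⟩

theorem Sim.trans {x y z : ℂ} (h : Sim x y) (h' : Sim y z) : Sim x z := by
  refine ⟨h.1, h'.2.1, ?_⟩
  have : x / z = x / y * (y / z) := by
    have := h.2.1
    field_simp
  rw [this]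
  exact alg_mul h.2.2 h'.2.2

theorem Sim.mul {x y z w : ℂ} (h : Sim x y) (h' : Sim z w) : Sim (x * z) (y * w) := by
  refine ⟨mul_ne_zero h.1 h'.1, mul_ne_zero h.2.1 h'.2.1, ?_⟩
  rw [mul_div_mul_comm]
  exact alg_mul h.2.2 h'.2.2

theorem Sim.cancel {x y z w : ℂ} (h : Sim (x * z) (y * w)) (h' : Sim z w) : Sim x y := by
  have hx : x ≠ 0 := left_ne_zero_of_mul h.1
  have hy : y ≠ 0 := left_ne_zero_of_mul h.2.1
  refine ⟨hx, hy, ?_⟩
  have h1 : x / y = x * z / (y * w) * (w / z) := by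
    have h2 := h'.1
    have h3 := h'.2.1
    field_simp
  rw [h1]
  exact alg_mul h.2.2 h'.symm.2.2

theorem Sim.pow {x y : ℂ} (h : Sim x y) (n : ℕ) : Sim (x ^ n) (y ^ n) := by
  refine ⟨pow_ne_zero _ h.1, pow_ne_zero _ h.2.1, ?_⟩
  rw [← div_pow]
  exact h.2.2.pow n

theorem Sim.root {x y : ℂ} {n : ℕ} (hn : 0 < n) (h : Sim (x ^ n) (y ^ n)) : Sim x y := by
  have hx : x ≠ 0 := by
    rintro rfl
    exact h.1 (zero_pow hn.ne')
  have hy : y ≠ 0 := by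
    rintro rfl
    exact h.2.1 (zero_pow hn.ne')
  refine ⟨hx, hy, IsAlgebraic.of_pow hn ?_⟩
  rw [div_pow]
  exact h.2.2

theorem sim_one {x : ℂ} (hx : x ≠ 0) (h : IsAlgebraic ℚ x) : Sim x 1 :=
  ⟨hx, one_ne_zero, by rwa [div_one]⟩

theorem alg_I : IsAlgebraic ℚ (I : ℂ) := by
  refine IsAlgebraic.of_pow (n := 2) two_pos ?_
  rw [I_sq]
  exact isAlgebraic_one.neg

theorem alg_two_I : IsAlgebraic ℚ (2 * I : ℂ) := by
  refine alg_mul ?_ alg_I
  have := isAlgebraic_algebraMap (R := ℚ) (A := ℂ) 2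
  simpa using this

theorem pi_ne : (Real.pi : ℂ) ≠ 0 := by exact_mod_cast Real.pi_ne_zero

theorem two_pi_I_ne : (2 * Real.pi * I : ℂ) ≠ 0 :=
  mul_ne_zero (mul_ne_zero two_ne_zero pi_ne) I_ne_zero

/-- `2πi ~ π`. -/
theorem sim_pi : Sim (2 * Real.pi * I) Real.pi := by
  refine ⟨two_pi_I_ne, pi_ne, ?_⟩
  have : (2 * Real.pi * I : ℂ) / Real.pi = 2 * I := by
    have := pi_ne
    field_simp
  rw [this]
  exact alg_two_I

/-! ### real powers -/

theorem alg_ofReal {x : ℝ} : IsAlgebraic ℚ (x : ℂ) ↔ IsAlgebraic ℚ x :=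
  isAlgebraic_algebraMap_iff (R := ℚ) (S := ℝ) (A := ℂ) ofReal_injective

theorem alg_rpow {x : ℝ} (hx : 0 < x) (h : IsAlgebraic ℚ x) (r : ℚ) : IsAlgebraic ℚ (x ^ (r : ℝ)) := by
  refine IsAlgebraic.of_pow (n := r.den) r.pos ?_
  have h1 : (x ^ (r : ℝ)) ^ r.den = x ^ (r.num : ℤ) := by
    rw [← Real.rpow_natCast, ← Real.rpow_mul hx.le, ← Real.rpow_intCast]
    congr 1
    have : (r * r.den : ℚ) = r.num := Rat.mul_den_eq_num r
    exact_mod_cast this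
  rw [h1]
  obtain ⟨n, hn | hn⟩ := r.num.eq_nat_or_neg
  · rw [hn, zpow_natCast]
    exact h.pow n
  · rw [hn, zpow_neg, zpow_natCast]
    exact (h.pow n).inv

/-! ### the products -/

section

variable {d : ℕ} [NeZero d]

theorem arg_pos (a : ZMod d) : 0 < 1 - (a.val : ℝ) / d := by
  have hd : (0 : ℝ) < d := by exact_mod_cast NeZero.pos d
  have ha : (a.val : ℝ) < d := by exact_mod_cast ZMod.val_lt a
  have : (a.val : ℝ) / d < 1 := (div_lt_one hd).2 ha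
  linarith

theorem gam_pos (ε : ZMod d → ℚ) (l : (ZMod d)ˣ) : 0 < gam d ε l :=
  Finset.prod_pos fun a _ => Real.rpow_pos_of_pos (Real.Gamma_pos_of_pos (arg_pos a)) _

theorem gam_ne (ε : ZMod d → ℚ) (l : (ZMod d)ˣ) : ((gam d ε l : ℝ) : ℂ) ≠ 0 := by
  exact_mod_cast (gam_pos ε l).ne'

theorem gam_add (ε ε' : ZMod d → ℚ) (l : (ZMod d)ˣ) :
    gam d (fun a => ε a + ε' a) l = gam d ε l * gam d ε' l := by
  unfold gam
  rw [← Finset.prod_mul_distrib]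
  refine Finset.prod_congr rfl fun a _ => ?_
  rw [← Real.rpow_add (Real.Gamma_pos_of_pos (arg_pos a))]
  push_cast
  rfl

theorem gam_zero (l : (ZMod d)ˣ) : gam d (fun _ => 0) l = 1 := by
  unfold gam
  refine Finset.prod_eq_one fun a _ => ?_
  simp

theorem gam_sub (ε ε' : ZMod d → ℚ) (l : (ZMod d)ˣ) :
    gam d (fun a => ε a - ε' a) l * gam d ε' l = gam d ε l := by
  rw [← gam_add]
  congr 1
  funext a
  ring

theorem gam_refl_eq (ε : ZMod d → ℚ) (l : (ZMod d)ˣ) : gam d (fun a => ε (-a)) l = gam d ε (-l) := by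
  unfold gam
  refine Finset.prod_congr rfl fun a _ => ?_
  have : -(a * ((l⁻¹ : (ZMod d)ˣ) : ZMod d)) = a * (((-l)⁻¹ : (ZMod d)ˣ) : ZMod d) := by
    rw [inv_neg, Units.val_neg, mul_neg]
  rw [← this]

theorem val_neg_add {a : ZMod d} (ha : a ≠ 0) : ((-a).val : ℚ) + a.val = d := by
  have h1 : (-a).val = d - a.val := by
    rw [ZMod.neg_val, if_neg ha]
  have h2 : a.val ≤ d := (ZMod.val_lt a).le
  rw [h1, Nat.cast_sub h2]
  ring

theorem sum_unit (ε : ZMod d → ℚ) (l : (ZMod d)ˣ) :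
    ∑ a ∈ Finset.univ.erase (0 : ZMod d), ε (a * l) = ∑ a ∈ Finset.univ.erase (0 : ZMod d), ε a := by
  refine Finset.sum_bij' (fun a _ => a * (l : ZMod d)) (fun a _ => a * ((l⁻¹ : (ZMod d)ˣ) : ZMod d))
    ?_ ?_ ?_ ?_ ?_
  · intro a ha
    simp only [Finset.mem_erase, Finset.mem_univ, and_true] at ha ⊢
    exact fun h => ha ((Units.mul_left_eq_zero l).1 h)
  · intro a ha
    simp only [Finset.mem_erase, Finset.mem_univ, and_true] at ha ⊢
    exact fun h => ha ((Units.mul_left_eq_zero l⁻¹).1 h)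
  · intro a _
    rw [mul_assoc, Units.mul_inv, mul_one]
  · intro a _
    rw [mul_assoc, Units.inv_mul, mul_one]
  · intro a _
    rfl

/-- The number `π / sin(π a / d)`. -/
noncomputable def psin (a : ZMod d) : ℝ := Real.pi / Real.sin (Real.pi * ((a.val : ℝ) / d))

theorem sin_pos {a : ZMod d} (ha : a ≠ 0) : 0 < Real.sin (Real.pi * ((a.val : ℝ) / d)) := by
  have hd : (0 : ℝ) < d := by exact_mod_cast NeZero.pos d
  have h1 : (0 : ℝ) < (a.val : ℝ) / d := by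
    refine div_pos ?_ hd
    have : 0 < a.val := Nat.pos_of_ne_zero ((ZMod.val_ne_zero a).2 ha)
    exact_mod_cast this
  have h2 := arg_pos a
  refine Real.sin_pos_of_pos_of_lt_pi (mul_pos Real.pi_pos h1) ?_
  have : Real.pi * ((a.val : ℝ) / d) < Real.pi * 1 := mul_lt_mul_of_pos_left (by linarith) Real.pi_pos
  linarith

theorem alg_sin (a : ZMod d) : IsAlgebraic ℚ (Real.sin (Real.pi * ((a.val : ℝ) / d))) := by
  have h := Real.isAlgebraic_sin_rat_mul_pi ((a.val : ℚ) / d)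
  have h2 : (((a.val : ℚ) / d : ℚ) : ℝ) * Real.pi = Real.pi * ((a.val : ℝ) / d) := by
    push_cast
    ring
  rw [h2] at h
  exact h.extendScalars (RingHom.injective_int (algebraMap ℤ ℚ))

theorem gamma_mul {a : ZMod d} (ha : a ≠ 0) :
    Real.Gamma (1 - (a.val : ℝ) / d) * Real.Gamma (1 - ((-a).val : ℝ) / d) = psin a := by
  have hd : (0 : ℝ) < d := by exact_mod_cast NeZero.pos d
  have h1 : ((-a).val : ℝ) + a.val = d := by exact_mod_cast val_neg_add ha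
  have h2 : 1 - ((-a).val : ℝ) / d = (a.val : ℝ) / d := by
    have : ((-a).val : ℝ) = d - a.val := by linarith
    rw [this]
    field_simp
    ring
  rw [h2, mul_comm, Real.Gamma_mul_Gamma_one_sub, psin]

/-- The reflection formula for the products. -/
theorem gam_reflection (ε : ZMod d → ℚ) (l : (ZMod d)ˣ) :
    IsAlgebraic ℚ (gam d ε l * gam d ε (-l) /
      Real.pi ^ ((∑ a ∈ Finset.univ.erase (0 : ZMod d), ε a : ℚ) : ℝ)) := by
  have h1 : gam d ε (-l) = ∏ a : ZMod d,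
      Real.Gamma (1 - ((-a).val : ℝ) / d) ^ ((ε (a * (l⁻¹ : (ZMod d)ˣ)) : ℚ) : ℝ) := by
    unfold gam
    refine Fintype.prod_equiv (Equiv.neg (ZMod d)) _ _ fun a => ?_
    simp only [Equiv.neg_apply, neg_neg]
    rw [inv_neg, Units.val_neg, mul_neg, neg_mul]
  have h2 : gam d ε l * gam d ε (-l) = ∏ a ∈ Finset.univ.erase (0 : ZMod d),
      psin a ^ ((ε (a * (l⁻¹ : (ZMod d)ˣ)) : ℚ) : ℝ) := by
    rw [h1]
    unfold gam
    rw [← Finset.prod_mul_distrib, ← Finset.mul_prod_erase _ _ (Finset.mem_univ (0 : ZMod d))]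
    rw [show (Real.Gamma (1 - (((0 : ZMod d)).val : ℝ) / d) ^ ((ε (0 * (l⁻¹ : (ZMod d)ˣ)) : ℚ) : ℝ) *
      Real.Gamma (1 - ((-(0 : ZMod d)).val : ℝ) / d) ^ ((ε (0 * (l⁻¹ : (ZMod d)ˣ)) : ℚ) : ℝ)) = 1 by
        simp, one_mul]
    refine Finset.prod_congr rfl fun a ha => ?_
    rw [← Real.mul_rpow (Real.Gamma_pos_of_pos (arg_pos a)).le (Real.Gamma_pos_of_pos (arg_pos _)).le,
      gamma_mul (Finset.ne_of_mem_erase ha)]
  have h3 : Real.pi ^ ((∑ a ∈ Finset.univ.erase (0 : ZMod d), ε a : ℚ) : ℝ) =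
      ∏ a ∈ Finset.univ.erase (0 : ZMod d), Real.pi ^ ((ε (a * (l⁻¹ : (ZMod d)ˣ)) : ℚ) : ℝ) := by
    rw [← sum_unit ε l⁻¹]
    push_cast
    rw [Real.rpow_sum_of_pos Real.pi_pos]
  rw [h2, h3, ← Finset.prod_div_distrib]
  refine Finset.prod_induction _ (fun x => IsAlgebraic ℚ x) (fun x y hx hy =>
    (hx.isIntegral.mul hy.isIntegral).isAlgebraic) isAlgebraic_one fun a ha => ?_
  have hs := sin_pos (Finset.ne_of_mem_erase ha)
  have h4 : psin a ^ ((ε (a * (l⁻¹ : (ZMod d)ˣ)) : ℚ) : ℝ) / Real.pi ^ ((ε (a * (l⁻¹ : (ZMod d)ˣ)) : ℚ) : ℝ)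
      = (Real.sin (Real.pi * ((a.val : ℝ) / d)) ^ ((ε (a * (l⁻¹ : (ZMod d)ˣ)) : ℚ) : ℝ))⁻¹ := by
    unfold psin
    rw [Real.div_rpow Real.pi_pos.le hs.le]
    have := Real.rpow_pos_of_pos Real.pi_pos ((ε (a * (l⁻¹ : (ZMod d)ˣ)) : ℚ) : ℝ)
    have h5 := Real.rpow_pos_of_pos hs ((ε (a * (l⁻¹ : (ZMod d)ˣ)) : ℚ) : ℝ)
    field_simp
  rw [h4]
  exact (alg_rpow hs (alg_sin a) _).inv

/-- If `ε` expresses `p` and `p(l) + p(-l) = m` then `∑ ε(a) = m`. -/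
theorem sum_eps {ε : ZMod d → ℚ} {p : (ZMod d)ˣ → ℚ} (h : Expresses d ε p) {l : (ZMod d)ˣ} {m : ℚ}
    (hm : p l + p (-l) = m) : ∑ a ∈ Finset.univ.erase (0 : ZMod d), ε a = m := by
  have hd : (d : ℚ) ≠ 0 := by exact_mod_cast NeZero.ne d
  have h1 := h l
  have h2 := h (-l)
  have h3 : (d : ℚ) * m = ∑ a : ZMod d, ε a * ((((l : ZMod d) * a).val : ℚ) + (-((l : ZMod d) * a)).val) := by
    rw [← hm, mul_add, h1, h2, ← Finset.sum_add_distrib]
    refine Finset.sum_congr rfl fun a _ => ?_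
    rw [Units.val_neg, neg_mul]
    ring
  rw [← Finset.add_sum_erase _ _ (Finset.mem_univ (0 : ZMod d))] at h3
  simp only [mul_zero, neg_zero, ZMod.val_zero, Nat.cast_zero, add_zero, zero_add] at h3
  have h4 : ∑ a ∈ Finset.univ.erase (0 : ZMod d), ε a *
      ((((l : ZMod d) * a).val : ℚ) + (-((l : ZMod d) * a)).val) =
      ∑ a ∈ Finset.univ.erase (0 : ZMod d), ε a * d := by
    refine Finset.sum_congr rfl fun a ha => ?_
    have h5 : (l : ZMod d) * a ≠ 0 := fun h6 => Finset.ne_of_mem_erase ha ((Units.mul_right_eq_zero l).1 h6)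
    rw [add_comm, val_neg_add h5]
  rw [h4, ← Finset.sum_mul, mul_comm] at h3
  exact (mul_right_cancel₀ hd h3).symm

/-- `G(l) G(-l) ~ π^m`. -/
theorem gam_sim {ε : ZMod d → ℚ} {p : (ZMod d)ˣ → ℚ} (h : Expresses d ε p) {l : (ZMod d)ˣ} {m : ℕ}
    (hm : p l + p (-l) = m) : Sim ((gam d ε l : ℝ) * (gam d ε (-l) : ℝ)) ((Real.pi : ℂ) ^ m) := by
  refine ⟨mul_ne_zero (gam_ne _ _) (gam_ne _ _), pow_ne_zero _ pi_ne, ?_⟩
  have h1 := gam_reflection ε l
  rw [sum_eps h hm] at h1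
  have h2 : ((gam d ε l : ℝ) : ℂ) * (gam d ε (-l) : ℝ) / (Real.pi : ℂ) ^ m =
      ((gam d ε l * gam d ε (-l) / Real.pi ^ (((m : ℚ) : ℝ)) : ℝ) : ℂ) := by
    push_cast
    rw [Real.rpow_natCast]
    push_cast
    rfl
  rw [h2, alg_ofReal]
  exact h1

end

end Run7.h615.GD
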