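import Pool.Agent.Run7.h615.GD.Gam

/-!
# The Gross-Deligne conjecture: periods of dual lines, real fields, Tate twists
-/

set_option autoImplicit false

namespace Run7.h615.GD

open Complex

section

variable {d : ℕ} [NeZero d]

theorem root_neg (l : ZMod d) : root d (-l) = (starRingEnd ℂ) (root d l) := by
  have hd : (d : ℂ) ≠ 0 := by exact_mod_cast NeZero.ne d
  unfold root
  rw [← exp_conj]
  simp only [map_mul, map_div₀, map_ofNat, conj_ofReal, conj_I, map_natCast]
  by_cases h : l = 0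
  · subst h
    simp
  · have h1 : ((-l).val : ℂ) = d - l.val := by
      have h2 := val_neg_add h
      have h3 : ((-l).val : ℂ) + l.val = d := by exact_mod_cast h2
      rw [← h3]
      ring
    rw [h1]
    have h4 : 2 * (Real.pi : ℂ) * I * ((d - l.val) / d) =
        2 * Real.pi * -I * (l.val / d) + 2 * Real.pi * I := by
      field_simp
      ring
    rw [h4, exp_add, exp_two_pi_mul_I, mul_one]

variable {F : Type} [Field F] [Algebra ℚ F] (E : Emb d F)

theorem emb_neg (l : (ZMod d)ˣ) (x : F) : E.emb (-l) x = (starRingEnd ℂ) (E.emb l x) := by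
  obtain ⟨P, hP⟩ := E.cyc x
  rw [hP, hP, Units.val_neg, root_neg]
  rw [Polynomial.aeval_def, Polynomial.aeval_def, Polynomial.eval₂_eq_sum, Polynomial.eval₂_eq_sum]
  unfold Polynomial.sum
  rw [map_sum]
  refine Finset.sum_congr rfl fun n _ => ?_
  rw [map_mul, map_pow]
  congr 1
  simp

theorem alg_root (l : ZMod d) : IsAlgebraic ℚ (root d l) := by
  have hd : (d : ℂ) ≠ 0 := by exact_mod_cast NeZero.ne d
  refine IsAlgebraic.of_pow (n := d) (NeZero.pos d) ?_
  have : root d l ^ d = 1 := by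
    unfold root
    rw [← exp_nat_mul]
    have : (d : ℂ) * (2 * Real.pi * I * (l.val / d)) = l.val * (2 * Real.pi * I) := by
      field_simp
    rw [this, exp_nat_mul_two_pi_mul_I]
  rw [this]
  exact isAlgebraic_one

theorem alg_emb (l : (ZMod d)ˣ) (x : F) : IsAlgebraic ℚ (E.emb l x) := by
  obtain ⟨P, hP⟩ := E.cyc x
  rw [hP, Polynomial.aeval_def, Polynomial.eval₂_eq_sum]
  unfold Polynomial.sum
  refine IsIntegral.isAlgebraic (IsIntegral.sum _ fun n _ => ?_)
  exact isIntegral_algebraMap.mul ((alg_root (l : ZMod d)).isIntegral.pow n)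

end

/-- A class as a linear map. -/
def toMap {X : Coh} (x : Cls X) : X.A →ₗ[ℚ] ℂ := x

/-- The value of a class at a homology class. -/
noncomputable def ev {X : Coh} (x : Cls X) (a : X.A) : ℂ := toMap x a

theorem cls_ext {X : Coh} {x y : Cls X} (h : ∀ a, ev x a = ev y a) : x = y := by
  have : toMap x = toMap y := LinearMap.ext h
  exact this

theorem scl_eq {X : Coh} (s : ℂ) (x : Cls X) : scl s x = s • x := rfl

/-- A class is a combination of rational classes. -/
theorem expand {X : Coh} (x : Cls X) :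
    x = ∑ i, ev x (Module.finBasis ℚ X.A i) • rat ((Module.finBasis ℚ X.A).coord i : X.A →ₗ[ℚ] ℚ) := by
  have key : toMap x = ∑ i, (toMap x (Module.finBasis ℚ X.A i)) •
      ((Algebra.linearMap ℚ ℂ) ∘ₗ ((Module.finBasis ℚ X.A).coord i)) := by
    refine (Module.finBasis ℚ X.A).ext fun j => ?_
    rw [LinearMap.sum_apply, Finset.sum_eq_single j]
    · rw [LinearMap.smul_apply, LinearMap.comp_apply, Module.Basis.coord_apply,
        Module.Basis.repr_self, Finsupp.single_eq_same]
      simp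
    · intro i _ hij
      rw [LinearMap.smul_apply, LinearMap.comp_apply, Module.Basis.coord_apply,
        Module.Basis.repr_self, Finsupp.single_eq_of_ne hij]
      simp
    · intro h
      exact absurd (Finset.mem_univ j) h
  exact key

theorem alg_polarization {X : Coh} {Ψ : Cls X → Cls X → ℂ}
    (h : IsPolarization X Ψ) {x y : Cls X} (hx : ∀ a, IsAlgebraic ℚ (ev x a))
    (hy : ∀ a, IsAlgebraic ℚ (ev y a)) : IsAlgebraic ℚ (Ψ x y) := by
  obtain ⟨B, hB⟩ := h.bilinear
  rw [hB, expand x, expand y]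
  simp only [map_sum, LinearMap.sum_apply, map_smul, LinearMap.smul_apply, smul_eq_mul]
  refine IsIntegral.isAlgebraic (IsIntegral.sum _ fun j _ => (hy _).isIntegral.mul
    (IsIntegral.sum _ fun i _ => (hx _).isIntegral.mul ?_))
  obtain ⟨r, hr⟩ := h.rational ((Module.finBasis ℚ X.A).coord i : X.A →ₗ[ℚ] ℚ)
    ((Module.finBasis ℚ X.A).coord j : X.A →ₗ[ℚ] ℚ)
  rw [← hB, hr]
  exact isIntegral_algebraMap (R := ℚ) (A := ℂ) (x := r)

section

variable {d : ℕ} [NeZero d] {F : Type} [Field F] [Algebra ℚ F] {E : Emb d F} (T : Triple E)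

theorem Triple.cls_apply (l : (ZMod d)ˣ) (a : T.X.A) : ev (T.cls l) a = E.emb l (T.q a) := rfl

theorem Triple.cls_ne (l : (ZMod d)ˣ) : T.cls l ≠ 0 := by
  intro h
  obtain ⟨a, ha⟩ := T.surj 1
  have h1 : ev (T.cls l) a = 0 := by rw [h]; rfl
  rw [T.cls_apply, ha, map_one] at h1
  exact one_ne_zero h1

theorem Triple.bar_cls (l : (ZMod d)ˣ) : bar (T.cls l) = T.cls (-l) := by
  refine cls_ext fun a => ?_
  rw [T.cls_apply, emb_neg]
  rfl

variable {T}

theorem Triple.p_neg (h : IsGood T.X) (l : (ZMod d)ˣ) : T.p l + T.p (-l) = T.X.m := by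
  have h1 : T.p l ≤ T.X.m := h.le _ _ (T.type l) (T.cls_ne l)
  have h2 := h.conj _ _ (T.type l)
  have h3 : IsOfType (T.X.m - T.p l) (T.cls (-l)) := by
    rw [← T.bar_cls]
    exact h2
  have h4 := h.disj _ _ _ (T.type (-l)) h3 (T.cls_ne (-l))
  omega

theorem Triple.p_neg' (h : IsGood T.X) (l : (ZMod d)ˣ) : (T.p l : ℚ) + T.p (-l) = T.X.m := by
  exact_mod_cast T.p_neg h l

/-- `P_σ P_τ ~ (2πi)^m` if `H_σ` and `H_τ` are not orthogonal. -/
theorem Triple.per_pair {Ψ : Cls T.X → Cls T.X → ℂ}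
    (hΨ : IsPolarization T.X Ψ) {l l' : (ZMod d)ˣ} (h4 : Ψ (T.cls l) (T.cls l') ≠ 0) :
    Sim (T.per l * T.per l') ((2 * Real.pi * I) ^ T.X.m) := by
  obtain ⟨a, ha, h1⟩ := hΨ.periods _ _ (T.per_mem l) (T.per_mem l')
  obtain ⟨B, hB⟩ := hΨ.bilinear
  have h2 : Ψ (scl (T.per l) (T.cls l)) (scl (T.per l') (T.cls l')) =
      T.per l * T.per l' * Ψ (T.cls l) (T.cls l') := by
    rw [hB, hB, scl_eq, scl_eq]
    simp only [map_smul, LinearMap.smul_apply, smul_eq_mul]
    ring
  have h3 : T.per l * T.per l' * Ψ (T.cls l) (T.cls l') = (2 * Real.pi * I) ^ T.X.m * a := by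
    rw [← h2]
    exact h1
  have h5 : IsAlgebraic ℚ (Ψ (T.cls l) (T.cls l')) :=
    alg_polarization hΨ (fun b => alg_emb E l _) fun b => alg_emb E l' _
  refine ⟨mul_ne_zero (T.per_ne l) (T.per_ne _), pow_ne_zero _ two_pi_I_ne, ?_⟩
  have h6 : T.per l * T.per l' / (2 * Real.pi * I) ^ T.X.m = a / Ψ (T.cls l) (T.cls l') := by
    rw [div_eq_div_iff (pow_ne_zero _ two_pi_I_ne) h4, h3, mul_comm]
  rw [h6]
  exact alg_div ha h5

/-- `P_σ P_σ̄ ~ (2πi)^m`. -/
theorem Triple.per_mul (h : IsGood T.X) (l : (ZMod d)ˣ) :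
    Sim (T.per l * T.per (-l)) ((2 * Real.pi * I) ^ T.X.m) := by
  obtain ⟨Ψ, hΨ⟩ := h.polarized
  refine T.per_pair hΨ ?_
  rw [← T.bar_cls]
  exact hΨ.positive _ _ (T.type l) (T.cls_ne l)

/-- `P_σ P_σ̄ ~ G(l) G(-l)`. -/
theorem Triple.per_gam (h : IsGood T.X) {ε : ZMod d → ℚ} (hε : Expresses d ε fun l => T.p l)
    (l : (ZMod d)ˣ) : Sim (T.per l * T.per (-l)) ((gam d ε l : ℝ) * (gam d ε (-l) : ℝ)) :=
  ((T.per_mul h l).trans (sim_pi.pow _)).trans (gam_sim hε (T.p_neg' h l)).symm

/-- The relation at `l` is equivalent to the one at `-l`. -/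
theorem Triple.holdsAt_neg (h : IsGood T.X) (l : (ZMod d)ˣ) : T.HoldsAt l ↔ T.HoldsAt (-l) := by
  constructor
  · intro h1 ε hε
    have h2 := T.per_gam h hε l
    rw [mul_comm (T.per l), mul_comm ((gam d ε l : ℝ) : ℂ)] at h2
    exact h2.cancel (h1 ε hε)
  · intro h1 ε hε
    exact (T.per_gam h hε l).cancel (h1 ε hε)

/-- Two functions which express the same `p` give the same products. -/
theorem gam_unique (hKO : KoblitzOgus) {ε ε' : ZMod d → ℚ} {p : (ZMod d)ˣ → ℚ}
    (h : Expresses d ε p) (h' : Expresses d ε' p) (l : (ZMod d)ˣ) :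
    Sim (gam d ε l : ℝ) (gam d ε' l : ℝ) := by
  have h1 : Expresses d (fun a => ε a - ε' a) fun _ => 0 := by
    intro l'
    have h2 := h l'
    have h3 := h' l'
    simp only [sub_mul]
    rw [Finset.sum_sub_distrib, ← h2, ← h3, sub_self, mul_zero]
  refine ⟨gam_ne _ _, gam_ne _ _, ?_⟩
  have h4 := gam_sub ε ε' l
  have h5 : ((gam d ε l : ℝ) : ℂ) / (gam d ε' l : ℝ) = (gam d (fun a => ε a - ε' a) l : ℝ) := by
    rw [div_eq_iff (gam_ne _ _), ← h4]
    push_cast
    rfl
  rw [h5]
  exact hKO d _ h1 l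

theorem expresses_neg {ε : ZMod d → ℚ} {p : (ZMod d)ˣ → ℚ} (h : Expresses d ε p) :
    Expresses d (fun a => ε (-a)) fun l => p (-l) := by
  intro l
  rw [h (-l)]
  refine Fintype.sum_equiv (Equiv.neg (ZMod d)) _ _ fun a => ?_
  simp only [Equiv.neg_apply, neg_neg, Units.val_neg, neg_mul, mul_neg]

theorem Triple.linked_sim {l l' : (ZMod d)ˣ} (h : T.Linked l l') :
    Sim (T.per l * T.per l') ((2 * Real.pi * I) ^ T.X.m) ∧ T.p l + T.p l' = T.X.m := by
  obtain ⟨Ψ, hΨ, hne⟩ := h
  exact ⟨T.per_pair hΨ hne, hΨ.orth _ _ _ _ (T.type l) (T.type l') hne⟩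

theorem Triple.even_sim {l l' : (ZMod d)ˣ} (h : T.Even l l') :
    Sim (T.per l') (T.per l) ∧ T.p l' = T.p l := by
  induction h with
  | refl => exact ⟨Sim.refl (T.per_ne l), rfl⟩
  | tail _ h2 ih =>
    obtain ⟨l₁, h3, h4⟩ := h2
    obtain ⟨h5, h6⟩ := T.linked_sim h3
    obtain ⟨h7, h8⟩ := T.linked_sim h4
    refine ⟨Sim.trans ?_ ih.1, by omega⟩
    rw [mul_comm] at h7
    exact (h7.trans h5.symm).cancel (Sim.refl (T.per_ne l₁))

/-- The conjecture is true if the property `IsIsotropic` does not hold. -/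
theorem Triple.holds_anisotropic (hKO : KoblitzOgus) (h : IsGood T.X) (hT : ¬ T.IsIsotropic) :
    T.Holds := by
  intro l ε hε
  have h1 : ∀ l, Sim (T.per l * T.per l) ((2 * Real.pi * I) ^ T.X.m) ∧ T.p l + T.p l = T.X.m := by
    intro l
    have h2 : ∃ l', T.Even l l' ∧ T.Linked l l' := by
      by_contra hcon
      exact hT ⟨l, fun l' h3 h4 => hcon ⟨l', h3, h4⟩⟩
    obtain ⟨l', h3, h4⟩ := h2
    obtain ⟨h5, h6⟩ := T.even_sim h3
    obtain ⟨h7, h8⟩ := T.linked_sim h4
    exact ⟨((Sim.refl (T.per_ne l)).mul h5.symm).trans h7, by omega⟩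
  have h2 : ∀ l', T.p (-l') = T.p l' := by
    intro l'
    have h3 := (h1 l').2
    have h4 := T.p_neg h l'
    omega
  have h5 : Sim (gam d ε (-l) : ℝ) (gam d ε l : ℝ) := by
    rw [← gam_refl_eq]
    refine gam_unique hKO (p := fun l' => T.p l') ?_ hε l
    have h6 := expresses_neg hε
    intro l'
    have h7 := h6 l'
    simp only [h2] at h7
    exact h7
  refine Sim.root (n := 2) two_pos ?_
  rw [sq, sq]
  refine ((h1 l).1.trans ((sim_pi.pow _).trans (gam_sim hε (T.p_neg' h l)).symm)).trans ?_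
  exact (Sim.refl (gam_ne _ _)).mul h5

/-- For real fields the lines are not isotropic. -/
theorem Triple.real_anisotropic (h : IsGood T.X) (hE : E.IsReal) : ¬ T.IsIsotropic := by
  rintro ⟨l, hl⟩
  obtain ⟨Ψ, hΨ⟩ := h.polarized
  have h1 : T.cls (-l) = T.cls l := by
    refine cls_ext fun a => ?_
    rw [T.cls_apply, T.cls_apply, emb_neg]
    exact Complex.conj_eq_iff_im.2 (hE l _)
  refine hl l Relation.ReflTransGen.refl ⟨Ψ, hΨ, ?_⟩
  have h2 := hΨ.positive _ _ (T.type l) (T.cls_ne l)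
  change Ψ (T.cls l) (bar (T.cls l)) ≠ 0 at h2
  rwa [T.bar_cls, h1] at h2

/-- The conjecture is true for real fields. -/
theorem Triple.holds_real (hKO : KoblitzOgus) (h : IsGood T.X) (hE : E.IsReal) : T.Holds :=
  T.holds_anisotropic hKO h (T.real_anisotropic h hE)

theorem Triple.holds_small (hKO : KoblitzOgus) (h : IsGood T.X) (hd : d < 3) : T.Holds := by
  refine T.holds_real hKO h fun l x => ?_
  have h1 : -l = l := by
    have : d = 1 ∨ d = 2 := by
      have := NeZero.pos d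
      omega
    rcases this with rfl | rfl
    · exact Subsingleton.elim _ _
    · exact Units.ext (ZMod.neg_eq_self_mod_two _)
  have h2 := emb_neg E l x
  rw [h1] at h2
  exact Complex.conj_eq_iff_im.1 h2.symm

/-- The function `c δ_1 + c δ_(-1)`. -/
def unitEps (d : ℕ) [NeZero d] (c : ℚ) : ZMod d → ℚ :=
  fun a => (if a = 1 then c else 0) + (if -a = 1 then c else 0)

theorem expresses_unit (hd : 2 ≤ d) (c : ℚ) : Expresses d (unitEps d c) fun _ => c := by
  intro l
  have h0 : (l : ZMod d) ≠ 0 := by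
    have : Nontrivial (ZMod d) := ZMod.nontrivial_iff.2 (by omega)
    exact l.ne_zero
  unfold unitEps
  simp only [add_mul, ite_mul, zero_mul]
  rw [Finset.sum_add_distrib, Finset.sum_ite_eq' Finset.univ (1 : ZMod d)]
  simp only [neg_eq_iff_eq_neg]
  rw [Finset.sum_ite_eq' Finset.univ (-1 : ZMod d)]
  simp only [Finset.mem_univ, if_true, mul_one, mul_neg]
  rw [← mul_add, add_comm ((l : ZMod d).val : ℚ), val_neg_add h0, mul_comm]

theorem gam_unit (hd : 2 ≤ d) (c : ℕ) (l : (ZMod d)ˣ) :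
    Sim (gam d (unitEps d c) l : ℝ) ((Real.pi : ℂ) ^ c) := by
  have h1 : ((gam d (unitEps d c) l : ℝ) : ℂ) =
      (gam d (fun a => if a = 1 then (c : ℚ) else 0) l : ℝ) *
        (gam d (fun a => if a = 1 then (c : ℚ) else 0) (-l) : ℝ) := by
    rw [← gam_refl_eq, ← ofReal_mul, ← gam_add]
    rfl
  rw [h1]
  refine ⟨mul_ne_zero (gam_ne _ _) (gam_ne _ _), pow_ne_zero _ pi_ne, ?_⟩
  have h2 := gam_reflection (fun a : ZMod d => if a = 1 then (c : ℚ) else 0) l
  have : Nontrivial (ZMod d) := ZMod.nontrivial_iff.2 (by omega)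
  rw [Finset.sum_ite_eq' _ (1 : ZMod d), if_pos (Finset.mem_erase.2 ⟨one_ne_zero, Finset.mem_univ _⟩)] at h2
  rw [← ofReal_mul, ← ofReal_pow, ← ofReal_div, alg_ofReal]
  rwa [Rat.cast_natCast, Real.rpow_natCast] at h2

end

section

variable {d : ℕ} [NeZero d] {F : Type} [Field F] [Algebra ℚ F] {E : Emb d F}

/-- The conjecture for `H` and for its Tate twists. -/
theorem Triple.holds_twist (hKO : KoblitzOgus) {T T' : Triple E} {c : ℕ} (h : IsGood T.X)
    (h' : IsGood T'.X) (ht : T.IsTwist T' c) : T.Holds ↔ T'.Holds := by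
  rcases Nat.lt_or_ge d 3 with hd | hd
  · exact ⟨fun _ => T'.holds_small hKO h' hd, fun _ => T.holds_small hKO h hd⟩
  obtain ⟨t, h1, h2, h3⟩ := ht
  have h4 : ∀ l, pull t (T'.cls l) = T.cls l := by
    intro l
    refine cls_ext fun a => ?_
    change E.emb l (T'.q (t a)) = E.emb l (T.q a)
    rw [h1]
  have hp : ∀ l, T.p l = T'.p l + c := by
    intro l
    refine h.disj _ _ (T.cls l) (T.type l) ?_ (T.cls_ne l)
    rw [← h4]
    exact h3 _ _ (T'.type l)
  have hper : ∀ l, Sim (T.per l) ((Real.pi : ℂ) ^ c * T'.per l) := by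
    intro l
    have h5 : IsDR (scl ((2 * Real.pi * I) ^ c * T'.per l) (T.cls l)) := by
      have h6 := h2 _ (T'.per_mem l)
      have h7 : pull t (scl (T'.per l) (comp (E.emb l) T'.q)) = T'.per l • T.cls l := by
        rw [← h4]
        rfl
      rw [h7, scl_eq, smul_smul] at h6
      exact h6
    have h8 : Sim (T.per l) ((2 * Real.pi * I) ^ c * T'.per l) := by
      have h9 : (2 * Real.pi * I : ℂ) ^ c * T'.per l ≠ 0 :=
        mul_ne_zero (pow_ne_zero _ two_pi_I_ne) (T'.per_ne l)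
      exact ⟨T.per_ne l, h9, h.line _ _ _ (T.cls_ne l) h9 (T.per_mem l) h5⟩
    exact h8.trans ((sim_pi.pow c).mul (Sim.refl (T'.per_ne l)))
  have hd2 : 2 ≤ d := by omega
  constructor
  · intro hT l ε hε
    have h5 : Expresses d (fun a => ε a + unitEps d c a) fun l => T.p l := by
      intro l'
      have h6 := hε l'
      have h7 := expresses_unit hd2 (c : ℚ) l'
      simp only [add_mul]
      rw [Finset.sum_add_distrib, ← h6, ← h7, hp]
      push_cast
      ring
    have h8 := hT l _ h5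
    rw [gam_add] at h8
    have h9 : Sim (T'.per l * (Real.pi : ℂ) ^ c) ((gam d ε l : ℝ) * (gam d (unitEps d c) l : ℝ)) := by
      rw [mul_comm]
      refine (hper l).symm.trans ?_
      rwa [ofReal_mul] at h8
    exact h9.cancel (gam_unit hd2 c l).symm
  · intro hT l ε hε
    have h5 : Expresses d (fun a => ε a - unitEps d c a) fun l => T'.p l := by
      intro l'
      have h6 := hε l'
      have h7 := expresses_unit hd2 (c : ℚ) l'
      simp only [sub_mul]
      rw [Finset.sum_sub_distrib, ← h6, ← h7]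
      simp only [hp]
      push_cast
      ring
    have h8 := hT l _ h5
    have h9 := gam_sub ε (unitEps d c) l
    refine (hper l).trans ?_
    rw [← h9, mul_comm, ofReal_mul]
    exact h8.mul (gam_unit hd2 c l).symm

theorem gam_mul (c : ℕ) (ε : ZMod d → ℚ) (l : (ZMod d)ˣ) :
    gam d (fun a => c * ε a) l = gam d ε l ^ c := by
  induction c with
  | zero =>
    simp only [Nat.cast_zero, zero_mul, pow_zero]
    exact gam_zero l
  | succ c ih =>
    rw [pow_succ, ← ih, ← gam_add]
    congr 1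
    funext a
    push_cast
    ring

/-- The conjecture for `H` and for its tensor powers. -/
theorem Triple.holds_power {T T' : Triple E} {n : ℕ} (hn : 0 < n) (h : T.IsPower T' n) :
    T.Holds ↔ T'.Holds := by
  have hn' : (n : ℚ) ≠ 0 := by exact_mod_cast hn.ne'
  constructor
  · intro hT l ε hε
    have h1 : Expresses d (fun a => (n : ℚ)⁻¹ * ε a) fun l => T.p l := by
      intro l'
      have h2 := hε l'
      simp only [(h l').1] at h2
      simp only [mul_assoc]
      rw [← Finset.mul_sum, ← h2]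
      push_cast
      field_simp
    have h3 : ε = fun a => (n : ℚ) * ((n : ℚ)⁻¹ * ε a) := by
      funext a
      field_simp
    rw [h3, gam_mul, ofReal_pow]
    exact (h l).2.trans ((hT l _ h1).pow n)
  · intro hT l ε hε
    have h1 : Expresses d (fun a => (n : ℚ) * ε a) fun l => T'.p l := by
      intro l'
      have h2 := hε l'
      simp only [(h l').1, mul_assoc]
      rw [← Finset.mul_sum, ← h2]
      push_cast
      ring
    have h3 := hT l _ h1
    rw [gam_mul, ofReal_pow] at h3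
    exact Sim.root hn ((h l).2.symm.trans h3)

end

end Run7.h615.GD
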