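import Pool.Agent.Run7.h615.GD.Per

/-!
# The Gross-Deligne conjecture: reduction to spaces of Hodge classes
-/

set_option autoImplicit false

namespace Run7.h615.GD

open Complex TensorProduct

section

variable {d : ℕ} [NeZero d] {F K : Type} [Field F] [Algebra ℚ F] [Field K] [Algebra ℚ K]
  {EF : Emb d F} {EK : Emb d K}

/-- `F` is a subfield of `ℚ(μ_d)`. -/
theorem exists_hom (EF : Emb d F) (hK : EK.IsFull) :
    ∃ i : F →ₐ[ℚ] K, ∀ l x, EK.emb l (i x) = EF.emb l x := by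
  obtain ⟨z, hz⟩ := hK
  have h1 : ∀ x, ∃ y, ∀ l, EK.emb l y = EF.emb l x := by
    intro x
    obtain ⟨P, hP⟩ := EF.cyc x
    refine ⟨Polynomial.aeval z P, fun l => ?_⟩
    rw [hP, ← hz, Polynomial.aeval_algHom_apply]
  have hinj : Function.Injective (EK.emb 1) := (EK.emb 1).toRingHom.injective
  have hr : ∀ x, EF.emb 1 x ∈ (EK.emb 1).range := by
    intro x
    obtain ⟨y, hy⟩ := h1 x
    exact ⟨y, hy 1⟩
  let i : F →ₐ[ℚ] K :=
    (AlgEquiv.ofInjective (EK.emb 1) hinj).symm.toAlgHom.comp ((EF.emb 1).codRestrict _ hr)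
  have hi : ∀ x, EK.emb 1 (i x) = EF.emb 1 x := by
    intro x
    have h2 : (AlgEquiv.ofInjective (EK.emb 1) hinj) (i x) = (EF.emb 1).codRestrict _ hr x :=
      AlgEquiv.apply_symm_apply _ _
    exact congrArg Subtype.val h2
  refine ⟨i, fun l x => ?_⟩
  obtain ⟨y, hy⟩ := h1 x
  have h3 : i x = y := hinj (by rw [hi, hy])
  rw [h3, hy]

theorem ext_smul {X Y Z : Coh} (κ : Z.A →ₗ[ℚ] Ten X Y) (x : Cls X) (y : Cls Y) (s t : ℂ) :
    extCls κ (scl s x) (scl t y) = scl (s * t) (extCls κ x y) := by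
  have key : ext (scl s x) (scl t y) = (s * t) • ext x y := by
    refine TensorProduct.ext' fun a b => ?_
    change (s * toMap x a) * (t * toMap y b) = (s * t) * (toMap x a * toMap y b)
    ring
  have h2 : extCls κ (scl s x) (scl t y) = (((s * t) • ext x y) ∘ₗ κ : Z.A →ₗ[ℚ] ℂ) := by
    unfold extCls
    rw [key]
  rw [h2]
  rfl

/-- The tensor product over `F` of two admissible triples. -/
theorem exists_tensor {𝒳 : Set Coh} (h𝒳 : HasProducts 𝒳) (i : F →ₐ[ℚ] K)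
    (hi : ∀ l x, EK.emb l (i x) = EF.emb l x) (T : Triple EF) (T' : Triple EK) (hT : T.X ∈ 𝒳)
    (hT' : T'.X ∈ 𝒳) : ∃ S : Triple EK, S.X ∈ 𝒳 ∧ (∀ l, S.p l = T.p l + T'.p l) ∧
      ∀ l, S.per l = T.per l * T'.per l := by
  obtain ⟨Z, hZ, -, κ, hκ, h1, h2⟩ := h𝒳 _ hT _ hT'
  let μ : Ten T.X T'.X →ₗ[ℚ] K :=
    LinearMap.mul' ℚ K ∘ₗ TensorProduct.map (i.toLinearMap ∘ₗ T.q) T'.q
  let q : Z.A →ₗ[ℚ] K := μ ∘ₗ κ
  have hq : ∀ l, comp (EK.emb l) q = extCls κ (comp (EF.emb l) T.q) (comp (EK.emb l) T'.q) := by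
    intro l
    have h3 : ((EK.emb l).toLinearMap ∘ₗ μ : Ten T.X T'.X →ₗ[ℚ] ℂ) =
        ext (comp (EF.emb l) T.q) (comp (EK.emb l) T'.q) := by
      refine TensorProduct.ext' fun a b => ?_
      change EK.emb l (i (T.q a) * T'.q b) = EF.emb l (T.q a) * EK.emb l (T'.q b)
      rw [map_mul, hi]
    unfold extCls
    rw [← h3]
    rfl
  refine ⟨{ X := Z, q := q, surj := ?_, p := fun l => T.p l + T'.p l, type := ?_,
            per := fun l => T.per l * T'.per l, per_ne := ?_, per_mem := ?_ }, hZ, fun _ => rfl,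
            fun _ => rfl⟩
  · intro k
    obtain ⟨a, ha⟩ := T.surj 1
    obtain ⟨b, hb⟩ := T'.surj k
    obtain ⟨c, hc⟩ := hκ (a ⊗ₜ b : T.X.A ⊗[ℚ] T'.X.A)
    refine ⟨c, ?_⟩
    change μ (κ c) = k
    rw [hc]
    change i (T.q a) * T'.q b = k
    rw [ha, hb, map_one, one_mul]
  · intro l
    rw [hq]
    exact h2 _ _ _ _ (T.type l) (T'.type l)
  · intro l
    exact mul_ne_zero (T.per_ne l) (T'.per_ne l)
  · intro l
    have h3 := h1 _ _ (T.per_mem l) (T'.per_mem l)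
    rw [ext_smul, ← hq] at h3
    exact h3

/-- A triple over `ℚ(μ_d)` whose periods are those of `T` times gamma values. -/
def Ext (𝒳 : Set Coh) (T : Triple EF) (EK : Emb d K) (n : (ZMod d)ˣ → ℕ) : Prop :=
  ∃ S : Triple EK, S.X ∈ 𝒳 ∧ (∀ l, S.p l = T.p l + n l) ∧
    ∃ ε : ZMod d → ℚ, Expresses d ε (fun l => n l) ∧ ∀ l, Sim (S.per l) (T.per l * (gam d ε l : ℝ))

theorem Ext.congr {𝒳 : Set Coh} {T : Triple EF} {n n' : (ZMod d)ˣ → ℕ} (h : Ext 𝒳 T EK n)
    (hn : ∀ l, n l = n' l) : Ext 𝒳 T EK n' := by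
  have : n = n' := funext hn
  rw [← this]
  exact h

open Classical in
/-- The field `K` has abelian varieties of all types. -/
def AllTypes (𝒳 : Set Coh) (EK : Emb d K) : Prop :=
  ∀ Φ : Set (ZMod d)ˣ, IsCMType Φ → ∃ T : Triple EK, T.X ∈ 𝒳 ∧ T.X.m = 1 ∧
      (∀ l, T.p l = if l ∈ Φ then 1 else 0) ∧
        ∃ ε : ZMod d → ℚ, Expresses d ε (fun l => T.p l) ∧ ∀ l, Sim (T.per l) (gam d ε l)

open Classical in
theorem ext_first {𝒳 : Set Coh} (h𝒳 : HasProducts 𝒳) (hA : AllTypes 𝒳 EK) (hK : EK.IsFull)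
    (T : Triple EF) (hT : T.X ∈ 𝒳) {Φ : Set (ZMod d)ˣ} (hΦ : IsCMType Φ) :
    Ext 𝒳 T EK (fun l => if l ∈ Φ then 1 else 0) := by
  obtain ⟨i, hi⟩ := exists_hom EF hK
  obtain ⟨T', h1, -, h2, ε, h3, h4⟩ := hA Φ hΦ
  obtain ⟨S, h5, h6, h7⟩ := exists_tensor h𝒳 i hi T T' hT h1
  refine ⟨S, h5, fun l => by rw [h6, h2], ε, ?_, fun l => ?_⟩
  · intro l
    have h8 := h3 l
    simp only [h2] at h8
    exact h8
  · rw [h7]
    exact (Sim.refl (T.per_ne l)).mul (h4 l)

open Classical in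
theorem ext_next {𝒳 : Set Coh} (h𝒳 : HasProducts 𝒳) (hA : AllTypes 𝒳 EK)
    (T : Triple EF) {n : (ZMod d)ˣ → ℕ} (h : Ext 𝒳 T EK n) {Φ : Set (ZMod d)ˣ} (hΦ : IsCMType Φ) :
    Ext 𝒳 T EK (fun l => n l + if l ∈ Φ then 1 else 0) := by
  obtain ⟨S, h1, h2, ε, h3, h4⟩ := h
  obtain ⟨T', k1, -, k2, ε', k3, k4⟩ := hA Φ hΦ
  obtain ⟨S', h5, h6, h7⟩ := exists_tensor h𝒳 (AlgHom.id ℚ K) (fun _ _ => rfl) S T' h1 k1
  refine ⟨S', h5, fun l => by rw [h6, h2, k2, add_assoc], fun a => ε a + ε' a, ?_, fun l => ?_⟩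
  · intro l
    have h8 := k3 l
    have h9 := h3 l
    simp only [k2] at h8
    simp only [add_mul]
    rw [Finset.sum_add_distrib, ← h9, ← h8]
    push_cast
    ring
  · rw [h7, gam_add, ofReal_mul, ← mul_assoc]
    exact (h4 l).mul (k4 l)

/-! ### types of complex multiplication -/

theorem two_val_ne (hd : 3 ≤ d) (l : (ZMod d)ˣ) : 2 * (l : ZMod d).val ≠ d := by
  intro h
  have h1 : (2 : ZMod d) * l = 0 := by
    have h2 : ((2 * (l : ZMod d).val : ℕ) : ZMod d) = 0 := by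
      rw [h, ZMod.natCast_self]
    rwa [Nat.cast_mul, ZMod.natCast_val, ZMod.cast_id', id_eq, Nat.cast_ofNat] at h2
  have h3 : (2 : ZMod d) = 0 := (Units.mul_left_eq_zero l).1 h1
  have h4 : ((2 : ℕ) : ZMod d) = 0 := by exact_mod_cast h3
  rw [ZMod.natCast_eq_zero_iff] at h4
  have := Nat.le_of_dvd two_pos h4
  omega

theorem val_neg_unit (hd : 3 ≤ d) (l : (ZMod d)ˣ) :
    ((-l : (ZMod d)ˣ) : ZMod d).val + (l : ZMod d).val = d := by
  have : Nontrivial (ZMod d) := ZMod.nontrivial_iff.2 (by omega)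
  have h1 := val_neg_add (d := d) (a := l) l.ne_zero
  rw [Units.val_neg]
  exact_mod_cast h1

/-- One of the types used in the reduction. -/
def phi (p : (ZMod d)ˣ → ℕ) (i : ℕ) : Set (ZMod d)ˣ :=
  {l | if 2 * (l : ZMod d).val < d then p l ≤ i else i < p (-l)}

theorem phi_cm (hd : 3 ≤ d) (p : (ZMod d)ˣ → ℕ) (i : ℕ) : IsCMType (phi p i) := by
  intro l
  have h1 := val_neg_unit hd l
  have h2 := two_val_ne hd l
  unfold phi
  simp only [Set.mem_ofPred_eq, neg_neg]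
  by_cases h : 2 * (l : ZMod d).val < d
  · rw [if_pos h, if_neg (by omega)]
    omega
  · rw [if_neg h, if_pos (by omega)]
    omega

open Classical in
theorem phi_count {p : (ZMod d)ˣ → ℕ} {m : ℕ} (hp : ∀ l, p l + p (-l) = m)
    (l : (ZMod d)ˣ) : p l + ∑ i ∈ Finset.range m, (if l ∈ phi p i then 1 else 0) = m := by
  have h1 := hp l
  unfold phi
  simp only [Set.mem_ofPred_eq]
  by_cases h : 2 * (l : ZMod d).val < d
  · simp only [if_pos h]
    have h2 : ∑ i ∈ Finset.range m, (if p l ≤ i then 1 else 0) = m - p l := by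
      rw [Finset.sum_boole]
      have h3 : (Finset.range m).filter (fun i => p l ≤ i) = Finset.Ico (p l) m := by
        ext i
        simp only [Finset.mem_filter, Finset.mem_range, Finset.mem_Ico]
        tauto
      rw [h3, Nat.card_Ico]
      rfl
    rw [h2]
    omega
  · simp only [if_neg h]
    have h2 : ∑ i ∈ Finset.range m, (if i < p (-l) then 1 else 0) = p (-l) := by
      rw [Finset.sum_boole]
      have h3 : (Finset.range m).filter (fun i => i < p (-l)) = Finset.range (p (-l)) := by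
        ext i
        simp only [Finset.mem_filter, Finset.mem_range]
        omega
      rw [h3, Finset.card_range]
      rfl
    rw [h2]
    exact h1

open Classical in
theorem ext_all {𝒳 : Set Coh} (h𝒳 : HasProducts 𝒳) (hA : AllTypes 𝒳 EK) (hK : EK.IsFull)
    (hd : 3 ≤ d) (T : Triple EF) (hT : T.X ∈ 𝒳) (p : (ZMod d)ˣ → ℕ) (k : ℕ) :
    Ext 𝒳 T EK (fun l => 1 + ∑ i ∈ Finset.range k, (if l ∈ phi p i then 1 else 0)) := by
  induction k with
  | zero =>
    have h1 := ext_first h𝒳 hA hK T hT (phi_cm hd p 0)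
    have hc : IsCMType {l : (ZMod d)ˣ | l ∉ phi p 0} := by
      intro l
      have h2 := phi_cm hd p 0 l
      simp only [Set.mem_ofPred_eq]
      tauto
    have h3 := ext_next h𝒳 hA T h1 hc
    refine h3.congr fun l => ?_
    rw [Finset.range_zero, Finset.sum_empty, add_zero]
    by_cases h : l ∈ phi p 0
    · simp [h]
    · simp [h]
  | succ k ih =>
    have h3 := ext_next h𝒳 hA T ih (phi_cm hd p k)
    simp only [Finset.sum_range_succ, ← add_assoc]
    exact h3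

/-- The conjecture for `T` follows from the conjecture for spaces of Hodge classes. -/
theorem holds_of_hodge {𝒳 : Set Coh} (h𝒳 : HasProducts 𝒳) (hA : AllTypes 𝒳 EK) (hK : EK.IsFull)
    (hd : 3 ≤ d) (T : Triple EF) (hT : T.X ∈ 𝒳) (hg : IsGood T.X)
    (H : ∀ S : Triple EK, S.IsHodge → S.X ∈ 𝒳 → S.Holds) : T.Holds := by
  classical
  obtain ⟨S, h1, h2, ε', h3, h4⟩ := ext_all h𝒳 hA hK hd T hT T.p T.X.m
  have h5 : S.IsHodge := by
    refine ⟨T.X.m + 1, fun l => ?_⟩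
    have h6 := phi_count (fun l => T.p_neg hg l) l
    have h7 := h2 l
    simp only at h7
    omega
  intro l ε hε
  have h7 : Expresses d (fun a => ε a + ε' a) fun l => S.p l := by
    intro l'
    have h8 := hε l'
    have h9 := h3 l'
    simp only [add_mul]
    rw [Finset.sum_add_distrib, ← h8, ← h9, h2]
    push_cast
    ring
  have h8 := H S h5 h1 l _ h7
  rw [gam_add, ofReal_mul] at h8
  exact ((h4 l).symm.trans h8).cancel (Sim.refl (gam_ne _ _))

theorem hodge_iff (hKO : KoblitzOgus) {T : Triple EF} {k : ℕ} (hk : ∀ l, T.p l = k) (hd : 2 ≤ d) :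
    T.Holds ↔ ∀ l, Sim (T.per l) ((2 * Real.pi * I) ^ k) := by
  have h1 : Expresses d (unitEps d k) fun l => T.p l := by
    intro l
    have h2 := expresses_unit hd (k : ℚ) l
    simp only [hk]
    exact h2
  constructor
  · intro h l
    exact ((h l _ h1).trans (gam_unit hd k l)).trans (sim_pi.pow k).symm
  · intro h l ε hε
    exact ((h l).trans (sim_pi.pow k)).trans ((gam_unit hd k l).symm.trans (gam_unique hKO h1 hε l))

end

/-- The reduction of the conjecture to spaces of Hodge classes. -/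
theorem reduction (hKO : KoblitzOgus) {𝒳 : Set Coh} (hg : ∀ X ∈ 𝒳, IsGood X) (h𝒳 : HasProducts 𝒳)
    (hA : HasCM 𝒳) : (Conjecture 𝒳 ↔ HodgeCase 𝒳) ∧ (Conjecture 𝒳 ↔ HodgeClassesAlgebraic 𝒳) := by
  have h1 : Conjecture 𝒳 → HodgeCase 𝒳 := fun h d _ F _ _ E T _ _ _ _ hT => h d F E T hT
  have h2 : HodgeCase 𝒳 → Conjecture 𝒳 := by
    intro h d _ F _ _ E T hT
    rcases Nat.lt_or_ge d 3 with hd | hd
    · exact T.holds_small hKO (hg _ hT) hd
    · obtain ⟨K, _, _, EK, hK, hA'⟩ := hA d hd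
      refine holds_of_hodge h𝒳 hA' hK hd T hT (hg _ hT) fun S hS hS' => ?_
      by_cases hi : S.IsIsotropic
      · exact h d K EK S hd hK hS hi hS'
      · exact S.holds_anisotropic hKO (hg _ hS') hi
  have h3 : HodgeCase 𝒳 ↔ HodgeClassesAlgebraic 𝒳 := by
    constructor
    · intro h d _ F _ _ E T k hd hE hk hi hT
      exact (hodge_iff hKO hk (by omega)).1 (h d F E T hd hE ⟨k, hk⟩ hi hT)
    · intro h d _ F _ _ E T hd hE hk hi hT
      obtain ⟨k, hk⟩ := hk
      exact (hodge_iff hKO hk (by omega)).2 (h d F E T k hd hE hk hi hT)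
  exact ⟨⟨h1, h2⟩, ⟨fun h => h3.1 (h1 h), fun h => h2 (h3.2 h)⟩⟩

end Run7.h615.GD
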